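import Pool.Agent.N319.LE.Stm
import Pool.Agent.N980.WP.Ex5

/-!
From solutions on the Fourier side to smooth solutions (adapted from `Pool.Agent.N980.WP.Ex5`).
-/

open MeasureTheory Set Filter Topology
open scoped ContDiff

set_option linter.unusedVariables false
set_option linter.unusedSectionVars false

namespace Pool.Agent.N319.LE

open Pool.Agent.N980.NU hiding SPV V
open Pool.Agent.N980.CB (ti_nonneg tc_ti' ti_smooth' dv_fs)
open Pool.Agent.H356R3.NS (C3 E3 R3 ex SN Sym RD TT SF SFam Fam cf' at' nk pw fj dS Bf dt dU cvv PF Ph Dm')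
open H459R3.NS (V SPV)
open Pool.Agent.N977.S (LowE)
open Pool.Agent.N977.K (SolK)

variable {N : (Fq → C3) → (Fq → C3) → Fq → C3} {K : (V → V) → (V → V) → V → V}
  {ν c T p δ : ℝ} {a : Fq → C3} {u : Fam}

theorem spv_iff {v : V → V} : SPV v ↔ N980.NU.SPV v :=
  ⟨fun h => ⟨h.1, fun x j => h.2 j x⟩, fun h => ⟨h.1, fun j x => h.2 x j⟩⟩

/-! ### sums of operators -/

theorem Nop.add {N₁ N₂ : (Fq → C3) → (Fq → C3) → Fq → C3} (h₁ : Nop N₁) (h₂ : Nop N₂) :
    Nop fun x y => N₁ x y + N₂ x y where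
  add_left := fun x x' y hx hx' hy => by
    simp only [h₁.add_left x x' y hx hx' hy, h₂.add_left x x' y hx hx' hy]; abel
  add_right := fun x y y' hx hy hy' => by
    simp only [h₁.add_right x y y' hx hy hy', h₂.add_right x y y' hx hy hy']; abel
  smul_left := fun r x y hx hy => by
    simp only [h₁.smul_left r x y hx hy, h₂.smul_left r x y hx hy, smul_add]
  smul_right := fun r x y hx hy => by
    simp only [h₁.smul_right r x y hx hy, h₂.smul_right r x y hx hy, smul_add]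
  loc := fun k => by
    obtain ⟨C₁, h1, h2⟩ := h₁.loc k
    obtain ⟨C₂, h3, h4⟩ := h₂.loc k
    refine ⟨C₁ + C₂, by positivity, fun x y hx hy => ?_⟩
    have := h2 x y hx hy
    have := h4 x y hx hy
    calc ‖(N₁ x y + N₂ x y) k‖ ≤ ‖N₁ x y k‖ + ‖N₂ x y k‖ := norm_add_le _ _
      _ ≤ C₁ * √(nn 0 x) * √(nn 0 y) + C₂ * √(nn 0 x) * √(nn 0 y) := by linarith
      _ = _ := by ring
  est := fun m => by
    obtain ⟨C₁, h1, h2⟩ := h₁.est m
    obtain ⟨C₂, h3, h4⟩ := h₂.est m
    refine ⟨2 * C₁ + 2 * C₂, by positivity, fun x y hx hy F => ?_⟩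
    have e1 := h2 x y hx hy F
    have e2 := h4 x y hx hy F
    have e3 : ∀ k, (pw k ^ (3 * (m + 1)) * ‖(N₁ x y + N₂ x y) k‖) ^ 2 / (1 + nk k ^ 2)
        ≤ 2 * ((pw k ^ (3 * (m + 1)) * ‖N₁ x y k‖) ^ 2 / (1 + nk k ^ 2))
          + 2 * ((pw k ^ (3 * (m + 1)) * ‖N₂ x y k‖) ^ 2 / (1 + nk k ^ 2)) := by
      intro k
      have hp : 0 ≤ pw k ^ (3 * (m + 1)) := (pow_pos (H356R3.NS.pw_pos k) _).le
      have h5 : ‖(N₁ x y + N₂ x y) k‖ ≤ ‖N₁ x y k‖ + ‖N₂ x y k‖ := norm_add_le _ _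
      have h6 : (0 : ℝ) < 1 + nk k ^ 2 := by positivity
      rw [mul_div_assoc', mul_div_assoc', ← add_div]
      refine div_le_div_of_nonneg_right ?_ h6.le
      have h7 : pw k ^ (3 * (m + 1)) * ‖(N₁ x y + N₂ x y) k‖
          ≤ pw k ^ (3 * (m + 1)) * ‖N₁ x y k‖ + pw k ^ (3 * (m + 1)) * ‖N₂ x y k‖ := by
        rw [← mul_add]
        exact mul_le_mul_of_nonneg_left h5 hp
      have h8 : 0 ≤ pw k ^ (3 * (m + 1)) * ‖(N₁ x y + N₂ x y) k‖ := mul_nonneg hp (norm_nonneg _)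
      nlinarith [sq_nonneg (pw k ^ (3 * (m + 1)) * ‖N₁ x y k‖ - pw k ^ (3 * (m + 1)) * ‖N₂ x y k‖)]
    refine (Finset.sum_le_sum fun k _ => e3 k).trans ?_
    rw [Finset.sum_add_distrib, ← Finset.mul_sum, ← Finset.mul_sum]
    nlinarith

/-! ### the solution -/

theorem KSol.rd (h : KSol N c T a u) (t : ℝ) (i : Fin 3) : RD (cst fun k => u k t i) := by
  intro m
  obtain ⟨b, b0, hb, hub⟩ := h.dom m
  refine ⟨_, hb, fun k s => ?_⟩
  have := (norm_le_pi_norm (u k t) i).trans (hub k t)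
  exact mul_le_mul_of_nonneg_left this (pow_pos (H356R3.NS.pw_pos k) m).le

theorem KSol.rp (h : KSol N c T a u) (t : ℝ) : Rp (at' u t) := by
  intro m
  obtain ⟨b, b0, hb, hub⟩ := h.dom m
  refine ⟨∑' k, pw k ^ m * b k, fun k => ?_⟩
  have h1 : pw k ^ m * ‖at' u t k‖ ≤ pw k ^ m * b k :=
    mul_le_mul_of_nonneg_left (hub k t) (pow_pos (H356R3.NS.pw_pos k) m).le
  exact h1.trans (hb.le_tsum k fun j _ => mul_nonneg (pow_pos (H356R3.NS.pw_pos j) m).le (b0 j))

theorem KSol.sn (h : KSol N c T a u) (t : ℝ) : SN (at' u t) := by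
  obtain ⟨b, b0, hb, hub⟩ := h.dom 0
  refine hb.of_nonneg_of_le (fun _ => norm_nonneg _) fun k => ?_
  rw [pow_zero, one_mul]
  exact hub k t

theorem KSol.real (h : KSol N c T a u) (t : ℝ) (i : Fin 3) (x : V) :
    ((UU u t x i : ℝ) : ℂ) = fs (fun k => u k t i) x := by
  have h1 : (fs (fun k => u k t i) x).im = 0 := by
    rw [fs_SF]
    exact H356R3.NS.SF_real (c := cst fun k => u k t i) (fun k s => h.sym t k i) _
  apply Complex.ext
  · rfl
  · rw [h1]; simp

theorem KSol.fco (h : KSol N c T a u) (t : ℝ) : N980.NU.fco (UU u t) = at' u t := by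
  funext k i
  exact fco_fs (a := at' u t) (h.sn t) (h.sym t) k i

theorem KSol.spv (h : KSol N c T a u) (t : ℝ) : N980.NU.SPV (UU u t) := by
  refine ⟨contDiff_pi.2 fun i => fs_smooth (h.rd t i), fun x j => ?_⟩
  funext i
  unfold UU
  rw [fs_per]

theorem UU_Fd (u : Fam) (t : ℝ) : UU u t = Fd (at' u t) := rfl

theorem KSol.KK (hK : LowE 2 p δ K) (h : KSol N c T a u) (t : ℝ) (x : V) (i : Fin 3) :
    K (UU u t) (UU u t) x i = (fs (fun k => NK K (at' u t) (at' u t) k i) x).re := by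
  have h1 : N980.NU.SPV (K (UU u t) (UU u t)) :=
    spv_iff.1 (hK.smooth _ _ (spv_iff.2 (h.spv t)) (spv_iff.2 (h.spv t)))
  have h2 := h1.inv x i
  have h3 := congrArg Complex.re h2
  rw [Complex.ofReal_re] at h3
  exact h3

/-- The right hand side as a family. -/
noncomputable def RH (N : (Fq → C3) → (Fq → C3) → Fq → C3) (c : ℝ) (u : Fam) (i : Fin 3) : SFam :=
  fun k t => (-((c * H356R3.NS.sq k : ℝ) : ℂ)) * u k t i + N (at' u t) (at' u t) k i

theorem TT_RH (hN : Nop N) (hT : S_TTN) (c : ℝ) {u : Fam} {n : ℕ} (h : ∀ i, TT n (cf' u i)) (i : Fin 3) :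
    TT n (RH N c u i) :=
  TT.add (TT.mul (H356R3.NS.norm_sq_le c) (h i)) (hT N hN n u u h h i)

theorem RH_eq (c : ℝ) (u : Fam) (i : Fin 3) (k : Fq) (t : ℝ) :
    RH N c u i k t = (-(c * nk k ^ 2) • u k t + N (at' u t) (at' u t) k) i := by
  unfold RH
  rw [Pi.add_apply, Pi.smul_apply, Complex.real_smul, H356R3.NS.nk_sq]
  push_cast
  ring

theorem KSol.CC_deriv (h : KSol N c T a u) (hT : 0 < T) (i : Fin 3) (k : Fq) {τ : ℝ} (hτ : 0 < τ) :
    HasDerivAt (cf' (CC 0 T u) i k) (((T - 0 : ℝ) : ℂ) * ((ed τ : ℂ) * RH N c (CC 0 T u) i k τ)) τ := by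
  have hm := tc_mem' hT hτ
  have hd := h.ode k (tc 0 T τ) hm
  have hd2 := HasDerivAt.scomp τ hd (tc_deriv 0 T hτ)
  have hd3 := hasDerivAt_pi.1 hd2 i
  refine hd3.congr_deriv ?_
  rw [RH_eq, Pi.smul_apply, Complex.real_smul]
  push_cast
  rw [mul_assoc]
  rfl

theorem KSol.CC_TT (h : KSol N c T a u) (hN : Nop N) (hTT : S_TTN) (hT : 0 < T) (n : ℕ) :
    ∀ i, TT n (cf' (CC 0 T u) i) := by
  have hrd : ∀ i, RD (cf' (CC 0 T u) i) := by
    intro i m
    obtain ⟨b, b0, hb, hub⟩ := h.dom m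
    refine ⟨_, hb, fun k τ => ?_⟩
    have := (norm_le_pi_norm (u k (tc 0 T τ)) i).trans (hub k (tc 0 T τ))
    exact mul_le_mul_of_nonneg_left this (pow_pos (H356R3.NS.pw_pos k) m).le
  have hct : ∀ i k, Continuous (cf' (CC 0 T u) i k) := by
    intro i k
    exact (continuous_apply i).comp ((h.cont k).comp (tc_cont 0 T))
  induction n with
  | zero => intro i; exact ⟨hrd i, hct i⟩
  | succ n ih =>
    intro i
    refine ⟨hrd i, hct i, _, fun k τ hτ => h.CC_deriv hT i k hτ, ?_⟩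
    exact TT.mul (p := fun _ => ((T - 0 : ℝ) : ℂ)) (C := |T - 0|) (r := 0)
      (fun k => by rw [Complex.norm_real, Real.norm_eq_abs]; simp) (TT.ed (TT_RH hN hTT c ih i))

/-- Joint smoothness up to the initial time. -/
theorem KSol.smooth_on (h : KSol N c T a u) (hN : Nop N) (hTT : S_TTN) (hT : 0 < T) :
    (ContDiffOn ℝ ∞ (fun z : ℝ × V => UU u z.1 z.2) (Ico 0 T ×ˢ univ)) ∧
      ContDiffOn ℝ ∞ (fun z : ℝ × V => PP u z.1 z.2) (Ico 0 T ×ˢ univ) := by
  have key : ∀ (F : ℝ × V → ℂ) (g : ℝ × V → ℝ), ContDiffOn ℝ ∞ F (Ici 0 ×ˢ univ) →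
      (∀ t ∈ Ico 0 T, ∀ x, g (t, x) = (F (ti 0 T t, x)).re) → ContDiffOn ℝ ∞ g (Ico 0 T ×ˢ univ) := by
    intro F g hF hg
    have hcomp : ContDiffOn ℝ ∞ (fun z : ℝ × V => (F (ti 0 T z.1, z.2)).re) (Ico 0 T ×ˢ univ) := by
      refine Complex.reCLM.contDiff.comp_contDiffOn (hF.comp (t := Ici 0 ×ˢ univ)
        (ContDiffOn.prodMk ?_ contDiff_snd.contDiffOn) fun z hz => ⟨ti_nonneg hz.1.1 hz.1.2, mem_univ _⟩)
      exact (ti_smooth' hT).comp contDiff_fst.contDiffOn fun z hz => hz.1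
    exact hcomp.congr fun z hz => hg z.1 hz.1 z.2
  constructor
  · rw [contDiffOn_pi]
    intro i
    refine key (SF (cf' (CC 0 T u) i)) (fun z => UU u z.1 z.2 i)
      (H356R3.NS.SF_contDiffOn fun n => h.CC_TT hN hTT hT n i) fun t ht x => ?_
    show (fs (fun k => u k t i) x).re = (∑' k, u k (tc 0 T (ti 0 T t)) i * ex k x).re
    rw [tc_ti' ht.1 ht.2]; rfl
  · refine key (SF (PF (CC 0 T u))) (fun z => PP u z.1 z.2)
      (H356R3.NS.SF_contDiffOn fun n => H356R3.NS.TT_PF fun i => h.CC_TT hN hTT hT n i) fun t ht x => ?_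
    show (fs (fun k => PF u k t) x).re = (∑' k, PF u k (tc 0 T (ti 0 T t)) * ex k x).re
    rw [tc_ti' ht.1 ht.2]; rfl

/-- The time derivative. -/
theorem KSol.time_deriv (h : KSol N c T a u) (hN : Nop N) (hTTN : S_TTN) {t : ℝ} (ht : t ∈ Ioo 0 T)
    (x : V) (i : Fin 3) : HasDerivAt (fun s => UU u s x i)
      (fs (fun k => RH N c u i k t) x).re t := by
  have hT : 0 < T := ht.1.trans ht.2
  set C := CC 0 T u with hC
  set τ := ti 0 T t with hτ
  have hτ0 : 0 < τ := ti_pos ht.1 ht.2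
  have hTT := h.CC_TT hN hTTN hT
  set c' : SFam := fun k τ => ((T - 0 : ℝ) : ℂ) * ((ed τ : ℂ) * RH N c C i k τ) with hc'
  have hTT' : TT 0 c' :=
    TT.mul (p := fun _ => ((T - 0 : ℝ) : ℂ)) (C := |T - 0|) (r := 0)
      (fun k => by rw [Complex.norm_real, Real.norm_eq_abs]; simp) (TT.ed (TT_RH hN hTTN c (hTT 0) i))
  have hF := H356R3.NS.SF_hasFDerivAt (c := cf' C i) (c' := c') (hTT 0 i).rd hTT'.rd
    (fun k s hs => h.CC_deriv hT i k hs) (p := (τ, x)) ⟨hτ0, mem_univ _⟩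
  have hcurve : HasDerivAt (fun s : ℝ => ((ti 0 T s, x) : ℝ × V)) (1 / (T - t), 0) t :=
    (ti_deriv ht.1 ht.2).prodMk (hasDerivAt_const t x)
  have h3 := HasFDerivAt.comp_hasDerivAt t hF hcurve
  have h4 := Complex.reCLM.hasFDerivAt.comp_hasDerivAt t h3
  have h5 : HasDerivAt (fun s => UU u s x i) (Complex.reCLM ((Ph (SF c' (τ, x)) fun j =>
      SF (dS j (cf' C i)) (τ, x)) (1 / (T - t), 0))) t := by
    refine h4.congr_of_eventuallyEq ?_
    filter_upwards [Ioo_mem_nhds ht.1 ht.2] with s hs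
    show (fs (fun k => u k s i) x).re = (∑' k, u k (tc 0 T (ti 0 T s)) i * ex k x).re
    rw [tc_ti hs.1 hs.2]; rfl
  refine h5.congr_deriv ?_
  rw [H356R3.NS.Ph_apply]
  have hSF : SF c' (τ, x) = (((T - 0) * ed τ : ℝ) : ℂ) * fs (fun k => RH N c u i k t) x := by
    unfold SF fs
    rw [← tsum_mul_left]
    refine tsum_congr fun k => ?_
    simp only [hc', RH_eq]
    have e1 : at' C τ = at' u t := by
      funext k
      show u k (tc 0 T (ti 0 T t)) = u k t
      rw [tc_ti ht.1 ht.2]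
    have e2 : C k τ = u k t := congrFun e1 k
    rw [e1, e2]
    push_cast
    ring
  rw [hSF, hτ, ed_ti ht.1 ht.2]
  have h6 : (T - 0) * ((T - t) / (T - 0)) * (1 / (T - t)) = 1 := by
    have : T - 0 ≠ 0 := by linarith
    have : T - t ≠ 0 := by linarith [ht.2]
    field_simp
  simp only [Pi.zero_apply, Complex.ofReal_zero, mul_zero, Finset.sum_const_zero, add_zero,
    Complex.reCLM_apply]
  rw [mul_comm (((((T - 0) * ((T - t) / (T - 0)) : ℝ)) : ℂ)) _, mul_assoc, ← Complex.ofReal_mul, h6]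
  simp

theorem sy_of_sym {x : Fq → C3} (h : Sym x) : sy x = x := by
  funext k i
  unfold sy
  rw [h k i, star_star]
  ring

/-- The momentum equation. -/
theorem KSol.momentum (hK : LowE 2 p δ K) (hTTN : S_TTN) (hNB : Nop NB) (hNK : Nop (NK K))
    (h : KSol (fun x y => NB x y + NK K x y) (4 * Real.pi ^ 2 * ν) T a u) {t : ℝ}
    (ht : t ∈ Ioo 0 T) (x : V) (i : Fin 3) :
    deriv (fun s => UU u s x i) t + ∑ j, UU u t x j * pd j (fun y => UU u t y i) x
      = ν * lap (UU u t) x i - pd i (PP u t) x + K (UU u t) (UU u t) x i := by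
  set c := 4 * Real.pi ^ 2 * ν with hcd
  have hN := Nop.add hNB hNK
  rw [(h.time_deriv hN hTTN ht x i).deriv]
  set A : Fam := fun k _ => u k t with hA
  have hAr : ∀ i, RD (cf' A i) := fun i => h.rd t i
  have hAT : ∀ n i, TT n (cf' A i) := fun n i => TT_cst (h.rd t i) n
  have hdiv : ∀ k s, dt k (A k s) = 0 := fun k s => h.div k t
  have hPF : RD (cst fun k => PF u k t) := by
    have : TT 0 (PF A) := H356R3.NS.TT_PF (hAT 0)
    intro m
    obtain ⟨b, hb, hbd⟩ := this.rd m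
    exact ⟨b, hb, fun k s => hbd k 0⟩
  have e1 : ∀ j, pd j (fun y => UU u t y i) = fun x => (fs (fun k => fj k j * u k t i) x).re := fun j =>
    funext fun x => pd_fs (h.rd t i) j x
  have e2 : lap (UU u t) x i = (fs (fun k => ∑ j, fj k j * (fj k j * u k t i)) x).re := by
    unfold N980.NU.lap
    simp only [e1]
    simp only [pd_fs (RD_fj (h.rd t i) _)]
    rw [← Complex.re_sum, ← fs_finsum Finset.univ (a := fun j k => fj k j * (fj k j * u k t i))
      (fun j _ => RD_summ (RD_fj (RD_fj (h.rd t i) j) j))]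
  have e3 : pd i (PP u t) x = (fs (fun k => fj k i * PF u k t) x).re := pd_fs hPF i x
  have e4 := KSol.KK hK h t x i
  rw [e2, e3, e4]
  simp only [e1]
  have hdS : ∀ j, RD (dS j (cf' A i)) := fun j => (hAr i).mul fun k => H356R3.NS.norm_fj_le k j
  have hcv : ∀ j, RD (cvv (cf' A j) (dS j (cf' A i))) := fun j => (hAr j).conv (hdS j)
  have m1 : ∀ j, fs (fun k => u k t j) x * fs (fun k => fj k j * u k t i) x
      = fs (fun k => cvv (cf' A j) (dS j (cf' A i)) k 0) x := by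
    intro j
    exact H356R3.NS.SF_mul (c := cf' A j) (d := dS j (cf' A i)) (hAr j) (hdS j) (0, x)
  have hreal1 : ∀ j, ((UU u t x j : ℝ) : ℂ) = fs (fun k => u k t j) x := fun j => h.real t j x
  have m2 : ∀ j, UU u t x j * (fs (fun k => fj k j * u k t i) x).re
      = (fs (fun k => cvv (cf' A j) (dS j (cf' A i)) k 0) x).re := by
    intro j
    rw [← m1 j, ← hreal1 j, Complex.re_ofReal_mul]
  simp only [m2]
  rw [← Complex.re_sum, ← fs_finsum Finset.univ (a := fun j k => cvv (cf' A j) (dS j (cf' A i)) k 0)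
    (fun j _ => (by
      obtain ⟨b, hb, hbd⟩ := (hcv j).summ
      exact hb.of_nonneg_of_le (fun _ => norm_nonneg _) fun k => hbd k 0))]
  have s1 : Summable fun k => ‖RH (fun x y => NB x y + NK K x y) c u i k t‖ := by
    have h1 : TT 0 (RH (fun x y => NB x y + NK K x y) c A i) := TT_RH hN hTTN c (hAT 0) i
    obtain ⟨b, hb, hbd⟩ := h1.rd.summ
    refine hb.of_nonneg_of_le (fun _ => norm_nonneg _) fun k => hbd k 0
  have s2 : Summable fun k => ‖∑ j, cvv (cf' A j) (dS j (cf' A i)) k 0‖ := by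
    refine (summable_sum fun j (_ : j ∈ Finset.univ) => ?_ : Summable fun k => ∑ j,
      ‖cvv (cf' A j) (dS j (cf' A i)) k 0‖).of_nonneg_of_le (fun _ => norm_nonneg _) fun k => norm_sum_le _ _
    obtain ⟨b, hb, hbd⟩ := (hcv j).summ
    exact hb.of_nonneg_of_le (fun _ => norm_nonneg _) fun k => hbd k 0
  have s3 : Summable fun k => ‖∑ j, fj k j * (fj k j * u k t i)‖ := by
    refine (summable_sum fun j (_ : j ∈ Finset.univ) => ?_ : Summable fun k => ∑ j,
      ‖fj k j * (fj k j * u k t i)‖).of_nonneg_of_le (fun _ => norm_nonneg _) fun k => norm_sum_le _ _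
    exact RD_summ (RD_fj (RD_fj (h.rd t i) j) j)
  have s4 : Summable fun k => ‖fj k i * PF u k t‖ := RD_summ (RD_fj hPF i)
  have s5 : Summable fun k => ‖NK K (at' u t) (at' u t) k i‖ := by
    have h1 := hTTN (NK K) hNK 0 A A (hAT 0) (hAT 0) i
    obtain ⟨b, hb, hbd⟩ := h1.rd.summ
    exact hb.of_nonneg_of_le (fun _ => norm_nonneg _) fun k => hbd k 0
  have key : fs (fun k => RH (fun x y => NB x y + NK K x y) c u i k t) x
      + fs (fun k => ∑ j, cvv (cf' A j) (dS j (cf' A i)) k 0) x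
      = (ν : ℂ) * fs (fun k => ∑ j, fj k j * (fj k j * u k t i)) x
        + ((-1 : ℝ) : ℂ) * fs (fun k => fj k i * PF u k t) x
        + fs (fun k => NK K (at' u t) (at' u t) k i) x := by
    rw [← fs_smul', ← fs_smul', ← fs_add' s1 s2, ← fs_add' (by
        simp only [norm_mul]; exact s3.mul_left _) (by simp only [norm_mul] at s4 ⊢; exact s4.mul_left _),
      ← fs_add' ?_ s5]
    · congr 1
      funext k
      have hf := H356R3.NS.fourier_eq (ν := ν) hAr hdiv i k 0
      have e5 : RH (fun x y => NB x y + NK K x y) c u i k t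
          = dU (4 * Real.pi ^ 2 * ν) A i k 0 + NK K (at' u t) (at' u t) k i := by
        have h9 : NB (at' u t) (at' u t) k i = Bf (at' u t) (at' u t) k i := by
          unfold NB
          rw [sy_of_sym (h.sym t)]
        unfold RH
        show _ + (NB (at' u t) (at' u t) k i + NK K (at' u t) (at' u t) k i) = _
        rw [h9, ← add_assoc]
        rfl
      rw [e5]
      have h4 : ∑ j, dS j (dS j (cf' A i)) k 0 = ∑ j, fj k j * (fj k j * u k t i) := rfl
      have h5 : dS i (PF A) k 0 = fj k i * PF u k t := rfl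
      rw [h4, h5] at hf
      push_cast
      linear_combination hf
    · have s6 : Summable fun k => ‖(ν : ℂ) * ∑ j, fj k j * (fj k j * u k t i)‖ := by
        simp only [norm_mul]; exact s3.mul_left _
      have s7 : Summable fun k => ‖((-1 : ℝ) : ℂ) * (fj k i * PF u k t)‖ := by
        simp only [norm_mul] at s4 ⊢; exact s4.mul_left _
      exact (s6.add s7).of_nonneg_of_le (fun _ => norm_nonneg _) fun k => norm_add_le _ _
  have keyre := congrArg Complex.re key
  rw [Complex.add_re, Complex.add_re, Complex.add_re, Complex.re_ofReal_mul, Complex.re_ofReal_mul] at keyre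
  linarith

/-- LE/FLD. -/
theorem fld : S_FLD := by
  intro hTTN hconv hkop p δ K hp hK ν T a u hν hT h
  have hNK := (hkop p δ K hp hK).1
  have hN := Nop.add hconv.1 hNK
  exact
  { smooth_u := (h.smooth_on hN hTTN hT).1
    smooth_p := (h.smooth_on hN hTTN hT).2
    per_u := fun t _ j x => (h.spv t).2 x j
    per_p := fun t _ j x => by
      unfold PP
      rw [fs_per]
    divfree := fun t _ x => dv_fs (h.rd t) (fun k => h.div k t) x
    momentum := fun t ht x i => h.momentum hK hTTN hconv.1 hNK ht x i }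

end Pool.Agent.N319.LE
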