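import Pool.Agent.N319.LE.Main0
import Pool.Agent.N79.LE.Adm
import Pool.Agent.N645.LE.TTN
import Pool.Agent.N966.LE.Conv
import Pool.Agent.N878.LE.Kop
import Pool.Agent.N279.LE.Ksol

/-!
Local existence and uniqueness for the Navier-Stokes equations with an additional term of the class
`LowE 2 p δ`. Leaves: helper79 (ADM), helper645 (TTN), helper966 (CONV), helper878 (KOP),
helper279 (KSOL).
-/

namespace Pool.Agent.N319.LE

/-- Local existence and uniqueness. -/
theorem le_ : Pool.Agent.N977.P.S_LE :=
  le_of Pool.Agent.N79.LE.adm Pool.Agent.N645.LE.ttn Pool.Agent.N966.LE.conv_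
    Pool.Agent.N878.LE.kop Pool.Agent.N279.LE.ksol

end Pool.Agent.N319.LE
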