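import Pool.Agent.N319.LE.Uni
import Pool.Agent.N319.LE.Fld
import Pool.Agent.N977.P.Stm

/-!
Assembly of the local existence theorem.
-/

open MeasureTheory Set Filter Topology
open scoped ContDiff

namespace Pool.Agent.N319.LE

open Pool.Agent.N980.NU hiding SPV V
open Pool.Agent.H356R3.NS (C3 ex SN Sym RD TT SF SFam Fam cf' at' nk pw fj dt)
open H459R3.NS (V SPV)
open Pool.Agent.N977.S (LowE)
open Pool.Agent.N977.K (SolK)

/-- The Fourier coefficients of a smooth field decrease rapidly. -/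
theorem rp_fco {v : V → V} (hv : SPV v) : Rp (fco v) := by
  intro m
  choose b hb h using fun i => (spv_iff.1 hv).rd i m
  refine ⟨∑ i, ∑' k, b i k, fun k => ?_⟩
  have hb0 : ∀ i k, 0 ≤ b i k := fun i k =>
    (mul_nonneg (pow_pos (H356R3.NS.pw_pos k) m).le (norm_nonneg _)).trans (h i k 0)
  have h1 : ‖fco v k‖ ≤ ∑ i, ‖fco v k i‖ := by
    rw [pi_norm_le_iff_of_nonneg (Finset.sum_nonneg fun _ _ => norm_nonneg _)]
    intro i
    exact Finset.single_le_sum (f := fun i => ‖fco v k i‖) (fun _ _ => norm_nonneg _) (Finset.mem_univ i)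
  calc pw k ^ m * ‖fco v k‖ ≤ pw k ^ m * ∑ i, ‖fco v k i‖ :=
        mul_le_mul_of_nonneg_left h1 (pow_pos (H356R3.NS.pw_pos k) m).le
    _ = ∑ i, pw k ^ m * ‖fco v k i‖ := by rw [Finset.mul_sum]
    _ ≤ ∑ i, ∑' k, b i k := Finset.sum_le_sum fun i _ =>
        (h i k 0).trans ((hb i).le_tsum k fun j _ => hb0 i j)

theorem dt_fco {v : V → V} (hv : SPV v) (hdv : ∀ x, ∑ i, H459R3.NS.pd i (fun y => v y i) x = 0)
    (k : Fq) : dt k (fco v k) = 0 := by
  have hv' := spv_iff.1 hv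
  have h1 : H459R3.NS.fr (fun x => dv v x) k = 0 := by
    have : (fun x => dv v x) = fun _ => 0 := funext hdv
    rw [this]
    unfold H459R3.NS.fr H459R3.NS.fc
    simp
  have h2 : H459R3.NS.fr (fun x => dv v x) k = ∑ j, fj k j * fco v k j := by
    have h3 := fr_sum Finset.univ (f := fun j => pd j fun y => v y j) (fun j _ => sp_pd (hv'.sp j) j) k
    have h4 : (fun x => dv v x) = fun x => ∑ j, pd j (fun y => v y j) x := rfl
    rw [h4, h3]
    refine Finset.sum_congr rfl fun j _ => ?_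
    exact fr_pd' hv' j j k
  rw [h2] at h1
  unfold H356R3.NS.dt
  unfold fj at h1
  have h5 : 2 * Real.pi * Complex.I * ∑ j, (k j : ℂ) * fco v k j = 0 := by
    rw [Finset.mul_sum, ← h1]
    exact Finset.sum_congr rfl fun j _ => by ring
  have h6 : (2 * (Real.pi : ℂ) * Complex.I) ≠ 0 := by
    simp [Real.pi_ne_zero]
  exact (mul_eq_zero.1 h5).resolve_left h6

/-- Local existence and uniqueness. -/
theorem le_of (hADM : S_ADM) (hTTN : S_TTN) (hCONV : S_CONV) (hKOP : S_KOP) (hKSOL : S_KSOL) :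
    Pool.Agent.N977.P.S_LE := by
  intro p δ K hp hK ν hν
  refine ⟨fun T u u' q q' h h' h0 => uniq_E hν.le hp hK h h' h0, fun v hv hdv => ?_⟩
  obtain ⟨hNK, hNK2⟩ := hKOP p δ K hp hK
  obtain ⟨hNB, hNB2⟩ := hCONV
  obtain ⟨T, hT, u, hu⟩ := hKSOL hADM (fun x y => NB x y + NK K x y) (Nop.add hNB hNK)
    (fun x y hx hy => ⟨(hNB2 x y).1.add (hNK2 x y hx hy).1, fun k => by
      have e1 := (hNB2 x y).2 k
      have e2 := (hNK2 x y hx hy).2 k
      unfold dt at e1 e2 ⊢
      simp only [Pi.add_apply, mul_add, Finset.sum_add_distrib, e1, e2, add_zero]⟩)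
    (4 * Real.pi ^ 2 * ν) (by positivity) (fco v) (rp_fco hv) (fco_sym v) (dt_fco hv hdv)
  refine ⟨T, hT, UU u, PP u, fld hTTN ⟨hNB, hNB2⟩ hKOP p δ K hp hK ν T (fco v) u hν hT hu, ?_⟩
  funext x i
  show (fs (fun k => u k 0 i) x).re = v x i
  have e : (fun k => u k 0 i) = fun k => fco v k i := by
    funext k; rw [hu.init]
  rw [e, ← (spv_iff.1 hv).inv x i, Complex.ofReal_re]

end Pool.Agent.N319.LE
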