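import Pool.Agent.N977.S.Cls
import Pool.Agent.N980.NU.Phy
import Pool.Agent.Y5.E.Defs

/-!
Local existence for the Navier-Stokes equations with an additional bilinear term: statements of the
steps.
-/

open MeasureTheory Set Filter Topology
open scoped ContDiff

namespace Pool.Agent.N319.LE

open Pool.Agent.H356R3.NS (C3 Sym RD TT SFam Fam cf' at' nk pw Bf dt)
open Pool.Agent.N980.NU (fco fs UU PP)
open Pool.Agent.Y5.E (Adm ASol2 Rapid Sk bl)
open H459R3.NS (V SPV)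
open Pool.Agent.N977.S (LowE)
open Pool.Agent.N977.K (SolK)

/-- frequencies -/
abbrev Fq := Fin 3 → ℤ

/-- rapidly decreasing sequences -/
def Rp (x : Fq → C3) : Prop := ∀ m : ℕ, ∃ C : ℝ, ∀ k, pw k ^ m * ‖x k‖ ≤ C

/-- weighted norms (squared) -/
noncomputable def nn (m : ℕ) (x : Fq → C3) : ℝ := ∑' k, (pw k ^ m * ‖x k‖) ^ 2

/-- Real-bilinear operators on rapidly decreasing sequences which lose at most one derivative. -/
structure Nop (N : (Fq → C3) → (Fq → C3) → Fq → C3) : Prop where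
  add_left : ∀ x x' y, Rp x → Rp x' → Rp y → N (x + x') y = N x y + N x' y
  add_right : ∀ x y y', Rp x → Rp y → Rp y' → N x (y + y') = N x y + N x y'
  smul_left : ∀ (r : ℝ) x y, Rp x → Rp y → N (r • x) y = r • N x y
  smul_right : ∀ (r : ℝ) x y, Rp x → Rp y → N x (r • y) = r • N x y
  loc : ∀ k, ∃ C, 0 ≤ C ∧ ∀ x y, Rp x → Rp y → ‖N x y k‖ ≤ C * √(nn 0 x) * √(nn 0 y)
  est : ∀ m : ℕ, ∃ C, 0 ≤ C ∧ ∀ x y, Rp x → Rp y → ∀ F : Finset Fq,
    ∑ k ∈ F, (pw k ^ (3 * (m + 1)) * ‖N x y k‖) ^ 2 / (1 + nk k ^ 2)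
      ≤ C * (nn (3 * (m + 1)) x * nn 3 y + nn 3 x * nn (3 * (m + 1)) y)

/-! ### real coordinates -/

/-- from real (Hartley) coefficients to Fourier coefficients -/
noncomputable def hx (z : Fq × Fin 3 → ℝ) (k : Fq) : C3 := fun i =>
  ⟨(z (k, i) + z (-k, i)) / 2, (z (-k, i) - z (k, i)) / 2⟩

/-- from Fourier coefficients to real (Hartley) coefficients -/
noncomputable def hz (x : Fq → C3) (a : Fq × Fin 3) : ℝ := (x a.1 a.2).re - (x a.1 a.2).im

/-- the kernel -/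
noncomputable def ck (N : (Fq → C3) → (Fq → C3) → Fq → C3) (i a b : Fq × Fin 3) : ℝ :=
  hz (N (hx (Pi.single a 1)) (hx (Pi.single b 1))) i

/-- weights -/
noncomputable def rI (a : Fq × Fin 3) : ℝ := pw a.1 ^ 3

/-- damping -/
noncomputable def dI (c : ℝ) (a : Fq × Fin 3) : ℝ := c * nk a.1 ^ 2

/-- LE/ADM: the kernel satisfies the hypotheses of the abstract well-posedness theorem. -/
def S_ADM : Prop := ∀ N, Nop N → ∀ c : ℝ, 0 < c → Adm (dI c) rI (ck N) ∧
  ∀ z y : Fq × Fin 3 → ℝ, (∀ m, Sk rI m z) → (∀ m, Sk rI m y) →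
    ∀ i, bl (ck N) z y i = hz (N (hx z) (hx y)) i

/-- LE/TTN: regularity in time. -/
def S_TTN : Prop := ∀ N, Nop N → ∀ (n : ℕ) (u v : Fam), (∀ i, TT n (cf' u i)) →
  (∀ i, TT n (cf' v i)) → ∀ i, TT n (fun k s => N (at' u s) (at' v s) k i)

/-! ### the operators -/

/-- symmetrization -/
noncomputable def sy (x : Fq → C3) (k : Fq) : C3 := fun i => (x k i + star (x (-k) i)) / 2

/-- the convection term, projected on the fields of divergence zero -/
noncomputable def NB (x y : Fq → C3) : Fq → C3 := Bf (sy x) (sy y)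

/-- LE/CONV: the convection term. -/
def S_CONV : Prop := Nop NB ∧ ∀ x y, Sym (NB x y) ∧ ∀ k, dt k (NB x y k) = 0

/-- the real field with the Fourier coefficients `x` (real part of the Fourier series) -/
noncomputable def Fd (x : Fq → C3) (X : V) : V := fun i => (fs (fun k => x k i) X).re

/-- the operator `K` on the Fourier side -/
noncomputable def NK (K : (V → V) → (V → V) → V → V) (x y : Fq → C3) : Fq → C3 :=
  fco (K (Fd x) (Fd y))

/-- LE/KOP: the additional term. -/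
def S_KOP : Prop := ∀ (p δ : ℝ) (K : (V → V) → (V → V) → V → V), 0 ≤ p → LowE 2 p δ K →
  Nop (NK K) ∧ ∀ x y, Rp x → Rp y → Sym (NK K x y) ∧ ∀ k, dt k (NK K x y k) = 0

/-! ### solutions on the Fourier side -/

/-- Solutions on the Fourier side. -/
structure KSol (N : (Fq → C3) → (Fq → C3) → Fq → C3) (c T : ℝ) (a : Fq → C3) (u : Fam) : Prop where
  init : ∀ k, u k 0 = a k
  cont : ∀ k, Continuous (u k)
  dom : ∀ m : ℕ, ∃ b : Fq → ℝ, (∀ k, 0 ≤ b k) ∧ (Summable fun k => pw k ^ m * b k) ∧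
    ∀ k t, ‖u k t‖ ≤ b k
  ode : ∀ k, ∀ t ∈ Ioo 0 T, HasDerivAt (u k)
    (-(c * nk k ^ 2) • u k t + N (at' u t) (at' u t) k) t
  sym : ∀ t, Sym (at' u t)
  div : ∀ k t, dt k (u k t) = 0

/-- LE/KSOL: existence on the Fourier side. -/
def S_KSOL : Prop := S_ADM → ∀ N, Nop N →
  (∀ x y, Rp x → Rp y → Sym (N x y) ∧ ∀ k, dt k (N x y k) = 0) →
  ∀ c : ℝ, 0 < c → ∀ a, Rp a → Sym a → (∀ k, dt k (a k) = 0) → ∃ T > 0, ∃ u : Fam, KSol N c T a u

/-- LE/FLD: the fields. -/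
def S_FLD : Prop := S_TTN → S_CONV → S_KOP →
  ∀ (p δ : ℝ) (K : (V → V) → (V → V) → V → V), 0 ≤ p → LowE 2 p δ K →
  ∀ (ν T : ℝ) (a : Fq → C3) (u : Fam), 0 < ν → 0 < T →
    KSol (fun x y => NB x y + NK K x y) (4 * Real.pi ^ 2 * ν) T a u → SolK ν T K (UU u) (PP u)

end Pool.Agent.N319.LE
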