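import Pool.Agent.N977.Q.UniqL
import Pool.Agent.N977.S.Cls

/-!
Uniqueness of smooth solutions, for every perturbation of the class `LowE` (adapted from
`Pool.Agent.N977.Q.UniqL`).
-/

open MeasureTheory Set Filter Topology
open scoped ContDiff

namespace Pool.Agent.N319.LE

open H459R3.NS Pool.Agent.N977.Q
open Pool.Agent.N977.K (SolK cmp)
open Pool.Agent.N977.S (LowE)

variable {ν T σ π' δ : ℝ} {u v : ℝ → V → V} {p q : ℝ → V → ℝ} {K : (V → V) → (V → V) → V → V}

/-- Uniqueness of smooth solutions for every perturbation of the class. -/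
theorem sol_unique_E (hν : 0 ≤ ν) (hπ : 0 ≤ π') (hδ : 0 ≤ δ) (hK : LowE σ π' δ K)
    (hu : SolK ν T K u p) (hv : SolK ν T K v q) (h0 : ∀ x, u 0 x = v 0 x) :
    ∀ t ∈ Ico 0 T, ∀ x, u t x = v t x := by
  intro t ht
  -- bounds on `[0, t]`
  have hCex : ∀ i j, ∃ B, 0 ≤ B ∧ ∀ s ∈ Icc 0 t, ∀ x ∈ cube, |pd j (fun y => v s y i) x| ≤ B :=
    fun i j => bdd_compact (F := fun s => pd j (fun y => v s y i))
      (contDiffOn_pd (f := fun s y => v s y i) (smooth_c hv i) j).continuousOn ht.2
  choose Cf hCf0 hCf using hCex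
  set C := ∑ i, ∑ j, Cf i j with hC
  have hCle : ∀ i j, Cf i j ≤ C := fun i j =>
    (Finset.single_le_sum (f := fun j => Cf i j) (fun j _ => hCf0 i j) (Finset.mem_univ j)).trans
      (Finset.single_le_sum (f := fun i => ∑ j, Cf i j)
        (fun i _ => Finset.sum_nonneg fun j _ => hCf0 i j) (Finset.mem_univ i))
  obtain ⟨B, hB0, hB⟩ := Hn_time hv.smooth_u hv.per_u ht.2 σ π'
  set B' := δ * 5 ^ (|σ|) * B with hB'
  have hB'0 : 0 ≤ B' := by positivity
  set M := 6 * C + 2 * B' with hM
  have hw : ∀ i, ContDiffOn ℝ ∞ (fun z : ℝ × V => u z.1 z.2 i - v z.1 z.2 i) (Ico 0 T ×ˢ univ) :=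
    fun i => (smooth_c hu i).sub (smooth_c hv i)
  set E : ℝ → ℝ := fun s => ∑ i, ∫ x in cube, (u s x i - v s x i) ^ 2 with hE
  have hEc : ContinuousOn E (Icc 0 t) := by
    refine ContinuousOn.mono ?_ (fun s hs => ⟨hs.1, hs.2.trans_lt ht.2⟩ : Icc 0 t ⊆ Ico 0 T)
    exact continuousOn_finsetSum _ fun i _ =>
      continuousOn_int (F := fun s x => (u s x i - v s x i) ^ 2) ((hw i).continuousOn.pow 2)
  set DD : ℝ → Fin 3 → V → ℝ := fun s i x =>
    (ν * lap (fun y => u s y i) x - conv (fun i y => u s y i) i x - pd i (p s) x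
      + K (u s) (u s) x i)
    - (ν * lap (fun y => v s y i) x - conv (fun i y => v s y i) i x - pd i (q s) x
      + K (v s) (v s) x i) with hDD
  have hEd : ∀ s ∈ Ioo 0 t, HasDerivAt E
      (∑ i, ∫ x in cube, 2 * (u s x i - v s x i) * DD s i x) s := by
    intro s hs
    have hs' : s ∈ Ioo 0 T := ⟨hs.1, hs.2.trans ht.2⟩
    refine HasDerivAt.fun_sum fun i _ => ?_
    have key := hasDerivAt_int (F := fun s x => (u s x i - v s x i) ^ 2)
      (((hw i).of_le (by norm_cast) |>.mono (prod_mono Ioo_subset_Ico_self subset_rfl)).pow 2) hs'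
    refine key.congr_deriv ?_
    congr 1
    funext x
    have h1 := (sol_hasDerivAt hu hs' i x).sub (sol_hasDerivAt hv hs' i x)
    have h2 := h1.pow 2
    have h3 : HasDerivAt (fun s => (u s x i - v s x i) ^ 2) _ s := h2
    rw [h3.deriv]
    simp only [hDD]
    push_cast
    simp only [Pi.sub_apply]
    ring
  have hEle : ∀ s ∈ Ioo 0 t, ∑ i, ∫ x in cube, 2 * (u s x i - v s x i) * DD s i x
      ≤ M * E s := by
    intro s hs
    have hsI : s ∈ Ico 0 T := ⟨hs.1.le, hs.2.trans ht.2⟩
    have hsc : s ∈ Icc 0 t := ⟨hs.1.le, hs.2.le⟩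
    have hU : ∀ i, SP (fun y => u s y i) := fun i => sol_sp hu hsI i
    have hV : ∀ i, SP (fun y => v s y i) := fun i => sol_sp hv hsI i
    have hW : ∀ i, SP (fun y => u s y i - v s y i) := fun i => (hU i).sub (hV i)
    have hUs : SPV (u s) := sp_spv hU
    have hVs : SPV (v s) := sp_spv hV
    have hWs : SPV (fun y => u s y - v s y) := sp_spv (u := fun y => u s y - v s y) hW
    have hdW : ∀ x, ∑ i, pd i (fun y => u s y i - v s y i) x = 0 := fun x => by
      have h1 : ∀ i, pd i (fun y => u s y i - v s y i) x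
          = pd i (fun y => u s y i) x - pd i (fun y => v s y i) x := fun i => pd_sub' (hU i) (hV i) i x
      simp_rw [h1]
      rw [Finset.sum_sub_distrib, hu.divfree s hsI x, hv.divfree s hsI x, sub_zero]
    have hK1 := hK.smooth _ _ hUs hWs
    have hK2 := hK.smooth _ _ hWs hVs
    -- the difference of the nonlinear terms
    have hsplit : ∀ x i, K (u s) (u s) x i - K (v s) (v s) x i
        = K (u s) (fun y => u s y - v s y) x i + K (fun y => u s y - v s y) (v s) x i := by
      intro x i
      have h1 := hK.add_right (u s) (v s) (fun y => u s y - v s y) hUs hVs hWs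
      have h2 := hK.add_left (v s) (fun y => u s y - v s y) (v s) hVs hWs hVs
      have e : (fun x => v s x + (u s x - v s x)) = u s := funext fun x => by abel
      rw [e] at h1 h2
      have h3 := congrFun (congrFun h1 x) i
      have h4 := congrFun (congrFun h2 x) i
      simp only [Pi.add_apply] at h3 h4
      rw [h3, h4]
      ring
    refine diff_est' hν (U := fun i y => u s y i) (W := fun i y => u s y i - v s y i)
      (V' := fun i y => v s y i) (R := fun y => p s y - q s y)
      (Z := fun i y => K (u s) (fun y => u s y - v s y) y i + K (fun y => u s y - v s y) (v s) y i)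
      hU hW ((sol_sp_p hu hsI).sub (sol_sp_p hv hsI)) (hu.divfree s hsI) hdW hV
      (fun i j x hx => (hCf i j s hsc x hx).trans (hCle i j))
      (fun i => (spv_sp hK1 i).add (spv_sp hK2 i)) ?_ (DD s) ?_
    · have e1 : ∀ i, ∫ x in cube, (K (u s) (fun y => u s y - v s y) x i
          + K (fun y => u s y - v s y) (v s) x i) * (u s x i - v s x i)
          = (∫ x in cube, K (u s) (fun y => u s y - v s y) x i * (u s x i - v s x i))
          + ∫ x in cube, K (fun y => u s y - v s y) (v s) x i * (u s x i - v s x i) := by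
        intro i
        simp_rw [add_mul]
        exact integral_add ((spv_sp hK1 i).mul (hW i)).int ((spv_sp hK2 i).mul (hW i)).int
      simp_rw [e1]
      rw [Finset.sum_add_distrib]
      have h1 := hK.energy _ _ hUs hWs
      have h2 := hK.bound _ _ _ hWs hVs hWs 0 σ 0 0 π' 0 (by ring) le_rfl hπ le_rfl (by ring)
      simp only [Pi.sub_apply] at h1 h2
      rw [h1, zero_add]
      refine (le_abs_self _).trans (h2.trans ?_)
      have h3 := Hn_zero_le hWs
      have h4 := hB s hsc
      have h5 : Hn 0 0 (fun y => u s y - v s y) * Hn σ π' (v s) * Hn 0 0 (fun y => u s y - v s y)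
          ≤ B * ∑ i, ∫ x in cube, (u s x i - v s x i) ^ 2 := by
        calc _ = Hn σ π' (v s) * Hn 0 0 (fun y => u s y - v s y) ^ 2 := by ring
          _ ≤ B * Hn 0 0 (fun y => u s y - v s y) ^ 2 :=
              mul_le_mul_of_nonneg_right h4 (sq_nonneg _)
          _ ≤ _ := mul_le_mul_of_nonneg_left h3 hB0
      rw [abs_zero, zero_add, add_zero]
      calc _ ≤ δ * 5 ^ |σ| * (B * ∑ i, ∫ x in cube, (u s x i - v s x i) ^ 2) :=
            mul_le_mul_of_nonneg_left h5 (by positivity)
        _ = _ := by rw [hB']; ring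
    · intro i x
      simp only [hDD, conv]
      rw [lap_sub' (hU i) (hV i), pd_sub' (sol_sp_p hu hsI) (sol_sp_p hv hsI)]
      have h1 : ∀ j, pd j (fun y => u s y i - v s y i) x
          = pd j (fun y => u s y i) x - pd j (fun y => v s y i) x := fun j => pd_sub' (hU i) (hV i) j x
      simp_rw [h1]
      have h2 : (∑ j, u s x j * (pd j (fun y => u s y i) x - pd j (fun y => v s y i) x))
          + ∑ j, (u s x j - v s x j) * pd j (fun y => v s y i) x
          = (∑ j, u s x j * pd j (fun y => u s y i) x) - ∑ j, v s x j * pd j (fun y => v s y i) x := by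
        rw [← Finset.sum_add_distrib, ← Finset.sum_sub_distrib]
        exact Finset.sum_congr rfl fun j _ => by ring
      have h3 := hsplit x i
      linarith
  have hcmp := cmp (f := fun s => E s * Real.exp (-(M * s)))
    (f' := fun s => (∑ i, ∫ x in cube, 2 * (u s x i - v s x i) * DD s i x) * Real.exp (-(M * s))
      + E s * (Real.exp (-(M * s)) * -M)) (g := fun _ => 0) (g' := fun _ => 0) ht.1
    (hEc.mul (by fun_prop)) continuousOn_const
    (fun s hs => by
      have h1 := ((hasDerivAt_id s).const_mul M).neg.exp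
      have h2 : HasDerivAt (fun s => Real.exp (-(M * s))) (Real.exp (-(M * s)) * -M) s := by
        refine h1.congr_deriv ?_
        simp
      exact (hEd s hs).mul h2)
    (fun s _ => hasDerivAt_const _ _)
    (fun s hs => by
      have h1 := hEle s hs
      have h2 := mul_le_mul_of_nonneg_right h1 (Real.exp_pos (-(M * s))).le
      nlinarith)
  have hE0 : E 0 = 0 := by
    simp only [hE]
    refine Finset.sum_eq_zero fun i _ => ?_
    simp [h0]
  simp only [hE0, zero_mul, sub_zero, sub_self] at hcmp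
  have hEt : E t ≤ 0 := by
    by_contra hneg
    push Not at hneg
    have := mul_pos hneg (Real.exp_pos (-(M * t)))
    linarith
  have hnn : ∀ i, 0 ≤ ∫ x in cube, (u t x i - v t x i) ^ 2 := fun i =>
    integral_nonneg fun x => sq_nonneg _
  have hz : ∀ i, ∫ x in cube, (u t x i - v t x i) ^ 2 = 0 := fun i => by
    have h1 := Finset.single_le_sum (f := fun i => ∫ x in cube, (u t x i - v t x i) ^ 2)
      (fun i _ => hnn i) (Finset.mem_univ i)
    exact le_antisymm (h1.trans hEt) (hnn i)
  intro x
  funext i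
  have := eq_zero_of_int_sq ((sol_sp hu ht i).sub (sol_sp hv ht i)) (hz i) x
  linarith



theorem LowE.abs (hK : LowE σ π' δ K) : LowE σ π' |δ| K where
  smooth := hK.smooth
  add_left := hK.add_left
  add_right := hK.add_right
  smul_left := hK.smul_left
  smul_right := hK.smul_right
  const_left := hK.const_left
  const_right := hK.const_right
  divfree := hK.divfree
  energy := hK.energy
  bound := fun u v w hu hv hw s₁ s₂ s₃ a₁ a₂ a₃ h h1 h2 h3 h4 =>
    (hK.bound u v w hu hv hw s₁ s₂ s₃ a₁ a₂ a₃ h h1 h2 h3 h4).trans (by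
      have e1 : 0 ≤ Hn s₁ a₁ u := Real.sqrt_nonneg _
      have e2 : 0 ≤ Hn s₂ a₂ v := Real.sqrt_nonneg _
      have e3 : 0 ≤ Hn s₃ a₃ w := Real.sqrt_nonneg _
      have := le_abs_self δ
      gcongr)

/-- Uniqueness of smooth solutions for every perturbation of the class. -/
theorem uniq_E (hν : 0 ≤ ν) (hπ : 0 ≤ π') (hK : LowE σ π' δ K)
    (hu : SolK ν T K u p) (hv : SolK ν T K v q) (h0 : u 0 = v 0) :
    ∀ t ∈ Ico 0 T, u t = v t := fun t ht =>
  funext fun x => sol_unique_E hν hπ (abs_nonneg δ) (LowE.abs hK) hu hv (fun x => by rw [h0]) t ht x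

end Pool.Agent.N319.LE
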